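import Pool.Agent.Q222.RE.Main

/-!
# MP_432bca_pr: the root-evaluation matrix of the periodic random-walk maximum is non-singular

Definitions (file `Pool/Agent/Q222/RE/Def.lean`).  `X 0, ..., X (N-1)` are the random variables
(block `0` is the block `N` of the problem file), `m j` the least point of the support of `X j`.
`pgf P Z s = E s^Z`, `dist P Z k = P(Z ≤ k)`, `psum X j = X 0 + ... + X (j-1)`,
`cols m j = -m j`, `wt P X m j s = w_j(s)`, `phi P X m j c s = φ_{j,c}(s)`, `nu P X m j c = ν_{j,c}`;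
`Row P X N` the rows (the pairs `(α, t)`, `α` a zero of `G_{S_N} - 1` in the closed unit disc
different from `0` and `1` and `t` smaller than its multiplicity, and one more row), `Col m N` the
columns `(j, c)`, `matA P X m N` the matrix `A`.
-/

set_option autoImplicit false

namespace Pool.Agent.Results.MP_432bca_pr.NonSingular

open MeasureTheory ProbabilityTheory Pool.Agent.Q222.RE

theorem result {Ω : Type*} [MeasurableSpace Ω] (P : Measure Ω) [IsProbabilityMeasure P] (N : ℕ)
    (X : ℕ → Ω → ℤ) (m : ℕ → ℤ) (hX : ∀ j < N, Measurable (X j))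
    (hind : iIndepFun (fun j : Fin N => X j) P)
    (hm : ∀ j < N, IsLeast {k : ℤ | P {ω | X j ω = k} ≠ 0} (m j)) (hm0 : ∀ j < N, m j ≤ 0)
    (hD : ∑ j ∈ Finset.range N, m j < 0) (hmean : ∫ ω, ((psum X N ω : ℤ) : ℝ) ∂P < 0) :
    (∀ e : Row P X N ≃ Col m N, ((matA P X m N).submatrix e.symm id).det ≠ 0) ∧
      (∀ c : Col m N → ℂ, (matA P X m N).mulVec c = 0 → c = 0) ∧
      ∀ α : ℂ, ‖α‖ = 1 → pgf P (psum X N) α = 1 →
        ∃ d : ℂ, d ≠ 0 ∧ HasDerivWithinAt (pgf P (psum X N)) d (Metric.closedBall 0 1) α := by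
  have hker := ker_zero P N X m hX hind hm hm0 hD hmean
  refine ⟨fun e hdet => ?_, hker, bd_simple P N X m hX hind hm hm0 hD hmean⟩
  obtain ⟨v, hv, hv0⟩ := Matrix.exists_mulVec_eq_zero_iff.2 hdet
  refine hv (hker v ?_)
  funext r
  have h := congrFun hv0 (e r)
  simpa [Matrix.mulVec, dotProduct] using h

end Pool.Agent.Results.MP_432bca_pr.NonSingular
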